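import Pool.Agent.Lib_MP_4c49f5_co.ClaimW2
import Pool.Agent.Lib_MP_4c49f5_co.Tree

set_option autoImplicit false
set_option linter.unusedSectionVars false
set_option linter.unusedVariables false

namespace Pool.Agent.Results.MP_4c49f5_co.RootLeaves

open Finset Pool.Agent.Lib4c49

universe u v

variable {V : Type u} {E : Type v} [Fintype V] [DecidableEq V] [DecidableEq E] {a b : E → V}

/-- The rank. -/
noncomputable def ro (a b : E → V) (r : V) (A : Finset E) : ℕ := (reach a b {r} A \ {r}).card

lemma ro_mono (r : V) {A B : Finset E} (h : A ⊆ B) : ro a b r A ≤ ro a b r B :=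
  card_le_card (sdiff_subset_sdiff (reach_mono a b subset_rfl h) subset_rfl)

/-- The Tutte polynomial of the subgraph with edge set `B`. -/
noncomputable def TB (a b : E → V) (r : V) (B : Finset E) : MvPolynomial (Fin 2) ℤ :=
  ∑ A ∈ B.powerset, (MvPolynomial.X 0 - 1) ^ (ro a b r B - ro a b r A) *
    (MvPolynomial.X 1 - 1) ^ (nul a b {r} A)

/-- Evaluation at `x = 0` and `y = X`. -/
noncomputable def phi : MvPolynomial (Fin 2) ℤ →+* PowerSeries ℚ :=
  MvPolynomial.eval₂Hom (Int.castRingHom (PowerSeries ℚ)) ![0, PowerSeries.X]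

lemma phi_X0 : phi (MvPolynomial.X 0) = 0 := by simp [phi]

lemma phi_X1 : phi (MvPolynomial.X 1) = PowerSeries.X := by simp [phi]

/-- Removing the edge of a root leaf. -/
lemma TB_leaf {r v : V} (hvr : v ≠ r) {B : Finset E} {e : E} (he : e ∈ B) (hj : Joins a b e r v)
    (hl : ∀ f ∈ B, f ≠ e → (a f = v ∨ b f = v) → a f = b f) :
    TB a b r B = MvPolynomial.X 0 * TB a b r (B.erase e) := by
  -- for `A ⊆ B.erase e` the vertex `v` is not reached
  have hC : ∀ A ⊆ B.erase e, v ∉ reach a b {r} A := by
    intro A hA hv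
    have : reach a b {r} A ⊆ univ.erase v := by
      apply reach_min
      · intro x hx
        rw [mem_singleton] at hx
        rw [mem_erase]
        exact ⟨fun h => hvr (h.symm.trans hx), mem_univ _⟩
      · intro f hf
        have hf2 := mem_erase.1 (hA hf)
        have h3 := hl f hf2.2 hf2.1
        simp only [mem_erase, mem_univ, and_true]
        constructor
        · intro h4 h5
          exact h4 ((h3 (Or.inr h5)).trans h5)
        · intro h4 h5
          exact h4 ((h3 (Or.inl h5)).symm.trans h5)
    exact (mem_erase.1 (this hv)).1 rfl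
  have hr : ∀ A ⊆ B.erase e, reach a b {r} (insert e A) = insert v (reach a b {r} A) := by
    intro A hA
    apply reach_eq
    · exact (subset_reach a b _ _).trans (subset_insert _ _)
    · intro f hf
      rcases mem_insert.1 hf with rfl | hf
      · have h1 : r ∈ insert v (reach a b {r} A) :=
          mem_insert_of_mem (subset_reach a b _ _ (mem_singleton_self r))
        have h2 : v ∈ insert v (reach a b {r} A) := mem_insert_self _ _
        rcases hj with ⟨h3, h4⟩ | ⟨h3, h4⟩
        · rw [h3, h4]; exact ⟨fun _ => h2, fun _ => h1⟩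
        · rw [h3, h4]; exact ⟨fun _ => h1, fun _ => h2⟩
      · have hf2 := mem_erase.1 (hA hf)
        have h3 := hl f hf2.2 hf2.1
        have h4 := cl_reach a b {r} A f hf
        by_cases h5 : a f = v ∨ b f = v
        · rw [h3 h5]
        · push Not at h5
          rw [mem_insert, mem_insert]
          tauto
    · rw [insert_subset_iff]
      refine ⟨?_, reach_mono a b subset_rfl (subset_insert _ _)⟩
      have h1 : r ∈ reach a b {r} (insert e A) := subset_reach a b _ _ (mem_singleton_self r)
      have h2 := cl_reach a b {r} (insert e A) e (mem_insert_self _ _)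
      rcases hj with ⟨h3, h4⟩ | ⟨h3, h4⟩
      · rw [h3, h4] at h2; exact h2.1 h1
      · rw [h3, h4] at h2; exact h2.2 h1
  have hro : ∀ A ⊆ B.erase e, ro a b r (insert e A) = ro a b r A + 1 := by
    intro A hA
    unfold ro
    rw [hr A hA]
    have : insert v (reach a b {r} A) \ {r} = insert v (reach a b {r} A \ {r}) := by
      ext x
      simp only [mem_sdiff, mem_insert, mem_singleton]
      constructor
      · rintro ⟨h1 | h1, h2⟩
        · exact Or.inl h1
        · exact Or.inr ⟨h1, h2⟩
      · rintro (h1 | ⟨h1, h2⟩)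
        · exact ⟨Or.inl h1, fun h => hvr (h1.symm.trans h)⟩
        · exact ⟨Or.inr h1, h2⟩
    rw [this, card_insert_of_notMem]
    intro h
    exact hC A hA (mem_sdiff.1 h).1
  have hnul : ∀ A ⊆ B.erase e, nul a b {r} (insert e A) = nul a b {r} A := by
    intro A hA
    have h1 := nul_add a b {r} (insert e A)
    have h2 := nul_add a b {r} A
    have h3 := hro A hA
    unfold ro at h3
    rw [h3, card_insert_of_notMem (fun h => notMem_erase e B (hA h))] at h1
    omega
  have hroB : ro a b r B = ro a b r (B.erase e) + 1 := by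
    have := hro (B.erase e) subset_rfl
    rwa [insert_erase he] at this
  have h0 : TB a b r B = ∑ A ∈ (insert e (B.erase e)).powerset,
      (MvPolynomial.X 0 - 1) ^ (ro a b r B - ro a b r A) *
      (MvPolynomial.X 1 - 1) ^ (nul a b {r} A) := by
    rw [insert_erase he]; rfl
  rw [h0, sum_powerset_insert (notMem_erase _ _), ← sum_add_distrib, TB, mul_sum]
  refine sum_congr rfl (fun A hA => ?_)
  rw [mem_powerset] at hA
  have h1 := ro_mono (a := a) (b := b) r hA
  rw [hro A hA, hnul A hA, hroB]
  have h2 : ro a b r (B.erase e) + 1 - ro a b r A = (ro a b r (B.erase e) - ro a b r A) + 1 := by omega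
  have h3 : ro a b r (B.erase e) + 1 - (ro a b r A + 1) = ro a b r (B.erase e) - ro a b r A := by omega
  rw [h2, h3, pow_succ]
  ring

/-- The value at `x = 0`, up to a sign. -/
lemma phi_TB (r : V) (B : Finset E) :
    (-1) ^ (ro a b r B + (univ.erase r : Finset V).card) * phi (TB a b r B) =
      F a b PowerSeries.X {r} (univ.erase r) B (fun _ => -1) := by
  unfold TB F
  rw [map_sum, mul_sum]
  refine sum_congr rfl (fun A hA => ?_)
  rw [mem_powerset] at hA
  rw [map_mul, map_pow, map_pow, map_sub, map_sub, phi_X0, phi_X1, map_one, zero_sub, prod_const]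
  have h1 := ro_mono (a := a) (b := b) r hA
  have h2 : ((univ.erase r) \ reach a b {r} A).card + ro a b r A = (univ.erase r : Finset V).card := by
    unfold ro
    have h3 : reach a b {r} A \ {r} = univ.erase r ∩ reach a b {r} A := by
      ext x
      simp only [mem_sdiff, mem_singleton, mem_inter, mem_erase, mem_univ, and_true]
      tauto
    rw [h3, card_sdiff_add_card_inter]
  have h4 : ro a b r B + (univ.erase r : Finset V).card + (ro a b r B - ro a b r A) =
      ((univ.erase r) \ reach a b {r} A).card + 2 * ro a b r B := by omega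
  rw [← mul_assoc, ← pow_add, h4, pow_add, pow_mul]
  simp

lemma key (r : V) (n : ℕ) : ∀ B : Finset E, B.card = n → ∀ K : Finset V,
    (∀ v, v ∈ K ↔ v ≠ r ∧ RL a b r B v) →
    ∃ T' : MvPolynomial (Fin 2) ℤ, TB a b r B = (MvPolynomial.X 0) ^ K.card * T' ∧ phi T' ≠ 0 := by
  induction n using Nat.strong_induction_on with
  | _ n ih =>
  intro B hn K hK
  rcases K.eq_empty_or_nonempty with hK0 | ⟨v, hv⟩
  · refine ⟨TB a b r B, by rw [hK0]; simp, ?_⟩
    intro h
    have h1 := phi_TB (a := a) (b := b) r B
    rw [h, mul_zero] at h1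
    obtain ⟨v, hv, _, hv2⟩ := claimW (a := a) (b := b) r _ (univ.erase r) B (fun _ => -1) rfl
      (notMem_erase _ _) (by
        intro e he
        rw [insert_erase (mem_univ r)]
        exact ⟨mem_univ _, mem_univ _⟩) (fun v _ => Or.inl rfl) h1.symm
    have : v ∈ K := (hK v).2 ⟨(mem_erase.1 hv).1, hv2⟩
    rw [hK0] at this
    simp at this
  · obtain ⟨hvr, e, he, hj, hl⟩ := (hK v).1 hv
    have hT := TB_leaf hvr he hj hl
    have hc : (B.erase e).card < n := by
      rw [card_erase_of_mem he]
      have := card_pos.2 ⟨e, he⟩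
      omega
    have hev : ∀ w, w ≠ r → w ≠ v → ¬ (a e = w ∨ b e = w) := by
      intro w hwr hwv h
      rcases hj with ⟨h1, h2⟩ | ⟨h1, h2⟩ <;> rw [h1, h2] at h <;>
        rcases h with h | h <;> first | exact hwr h.symm | exact hwv h.symm
    obtain ⟨T', hT', hphi⟩ := ih _ hc (B.erase e) rfl (K.erase v) (by
      intro w
      rw [mem_erase, hK]
      constructor
      · rintro ⟨hwv, hwr, e', he', hj', hl'⟩
        refine ⟨hwr, e', mem_erase.2 ⟨?_, he'⟩, hj', fun f hf => hl' f (mem_of_mem_erase hf)⟩
        rintro rfl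
        apply hev w hwr hwv
        rcases hj' with ⟨h1, h2⟩ | ⟨h1, h2⟩
        · exact Or.inr h2
        · exact Or.inl h1
      · rintro ⟨hwr, e', he', hj', hl'⟩
        have he'2 := mem_erase.1 he'
        have hwv : w ≠ v := by
          rintro rfl
          have h1 := hl e' he'2.2 he'2.1 (by
            rcases hj' with ⟨h1, h2⟩ | ⟨h1, h2⟩
            · exact Or.inr h2
            · exact Or.inl h1)
          rcases hj' with ⟨h2, h3⟩ | ⟨h2, h3⟩
          · exact hwr (h3.symm.trans (h1.symm.trans h2))
          · exact hwr (h2.symm.trans (h1.trans h3))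
        refine ⟨hwv, hwr, e', he'2.2, hj', ?_⟩
        intro f hf hfe' hfw
        by_cases hfe : f = e
        · subst hfe
          exact absurd hfw (hev w hwr hwv)
        · exact hl' f (mem_erase.2 ⟨hfe, hf⟩) hfe' hfw)
    refine ⟨T', ?_, hphi⟩
    rw [hT, hT', ← mul_assoc, ← pow_succ']
    congr 2
    rw [card_erase_of_mem hv]
    have := card_pos.2 ⟨v, hv⟩
    omega

lemma isGreatest_of_factor {T T' : MvPolynomial (Fin 2) ℤ} {k : ℕ}
    (h : T = (MvPolynomial.X 0) ^ k * T') (h2 : phi T' ≠ 0) :
    IsGreatest {k : ℕ | (MvPolynomial.X 0 : MvPolynomial (Fin 2) ℤ) ^ k ∣ T} k := by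
  constructor
  · exact ⟨T', h⟩
  · intro m hm
    by_contra hcon
    push Not at hcon
    have h3 : (MvPolynomial.X 0 : MvPolynomial (Fin 2) ℤ) ^ (k + 1) ∣ T :=
      (pow_dvd_pow _ (by omega)).trans hm
    rw [h, pow_succ] at h3
    have h4 := (mul_dvd_mul_iff_left (pow_ne_zero k (MvPolynomial.X_ne_zero 0))).1 h3
    obtain ⟨q, hq⟩ := h4
    apply h2
    rw [hq, map_mul, phi_X0, zero_mul]

/-- The general case. -/
theorem main {V : Type u} {E : Type v} [Fintype V] [Fintype E] (ends : E → Sym2 V) (r : V) :
    IsGreatest {k : ℕ | (MvPolynomial.X 0 : MvPolynomial (Fin 2) ℤ) ^ k ∣ tutte ends r}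
      (rootLeavesNL ends r).card := by
  classical
  have hex : ∀ e, ∃ x y, ends e = s(x, y) := by
    intro e
    induction ends e using Sym2.ind with
    | _ x y => exact ⟨x, y, rfl⟩
  choose a b hab using hex
  have hT : tutte ends r = TB a b r univ := by
    unfold tutte TB
    rw [powerset_univ]
    refine sum_congr rfl (fun A _ => ?_)
    rw [rk_eq hab, rk_eq hab]
    rfl
  obtain ⟨T', h1, h2⟩ := key (a := a) (b := b) r _ univ rfl (rootLeavesNL ends r) (by
    intro v
    unfold rootLeavesNL
    rw [mem_filter]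
    simp only [mem_univ, true_and]
    constructor
    · rintro ⟨hvr, hdeg, e, he⟩
      refine ⟨hvr, e, mem_univ _, ?_, ?_⟩
      · rw [hab, Sym2.eq_iff] at he
        rcases he with h | h
        · exact Or.inl h
        · exact Or.inr h
      · intro f _ hfe hfv
        by_contra hne
        unfold degNL at hdeg
        have h1 : ∀ g : E, (a g = v ∨ b g = v) → a g ≠ b g → g ∈ univ.filter
            (fun e : E => v ∈ ends e ∧ ¬ (ends e).IsDiag) := by
          intro g hg hg2
          rw [mem_filter, hab, Sym2.mem_iff]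
          refine ⟨mem_univ _, ?_, by simpa using hg2⟩
          rcases hg with h | h
          · exact Or.inl h.symm
          · exact Or.inr h.symm
        have h2 := h1 f hfv hne
        have h3 : e ∈ univ.filter (fun e : E => v ∈ ends e ∧ ¬ (ends e).IsDiag) := by
          rw [mem_filter, he]
          refine ⟨mem_univ _, by simp, ?_⟩
          simpa using Ne.symm hvr
        exact hfe (card_le_one.1 hdeg.le f h2 e h3)
    · rintro ⟨hvr, e, _, hj, hl⟩
      have he : ends e = s(r, v) := by
        rw [hab, Sym2.eq_iff]; exact hj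
      refine ⟨hvr, ?_, e, he⟩
      unfold degNL
      rw [card_eq_one]
      refine ⟨e, ?_⟩
      ext f
      rw [mem_filter, mem_singleton]
      constructor
      · rintro ⟨_, h1, h2⟩
        by_contra hfe
        rw [hab, Sym2.mem_iff] at h1
        rw [hab] at h2
        apply h2
        rw [Sym2.mk_isDiag_iff]
        apply hl f (mem_univ _) hfe
        rcases h1 with h | h
        · exact Or.inl h.symm
        · exact Or.inr h.symm
      · rintro rfl
        rw [he]
        refine ⟨mem_univ _, by simp, ?_⟩
        simpa using Ne.symm hvr)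
  rw [hT]
  exact isGreatest_of_factor h1 h2

lemma rootLeaves_eq {V : Type u} {E : Type v} [Fintype V] [Fintype E] (ends : E → Sym2 V) (r : V)
    (h : ∀ e, ¬ (ends e).IsDiag) : rootLeaves ends r = rootLeavesNL ends r := by
  classical
  have hdeg : ∀ v, deg ends v = degNL ends v := by
    intro v
    unfold deg degNL
    rw [card_filter]
    refine sum_congr rfl (fun e _ => ?_)
    have h1 : ends e ≠ s(v, v) := by
      intro h2
      apply h e
      rw [h2]
      exact Sym2.mk_isDiag_iff.2 rfl
    rw [if_neg h1]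
    have h2 := h e
    simp only [h2, not_false_eq_true, and_true]
  unfold rootLeaves rootLeavesNL
  ext v
  rw [mem_filter, mem_filter, hdeg]
  constructor
  · rintro ⟨h1, h2, e, h3⟩
    refine ⟨h1, ?_, h2, e, h3⟩
    rintro rfl
    apply h e
    rw [h3]
    exact Sym2.mk_isDiag_iff.2 rfl
  · rintro ⟨h1, _, h2, h3⟩
    exact ⟨h1, h2, h3⟩

lemma mem_rootLeaves {V : Type u} {E : Type v} [Fintype V] [Fintype E] (ends : E → Sym2 V)
    (r v : V) : v ∈ rootLeaves ends r ↔ deg ends v = 1 ∧ ∃ e, ends e = s(r, v) := by
  classical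
  unfold rootLeaves
  rw [mem_filter]
  simp

lemma mem_rootLeavesNL {V : Type u} {E : Type v} [Fintype V] [Fintype E] (ends : E → Sym2 V)
    (r v : V) : v ∈ rootLeavesNL ends r ↔ v ≠ r ∧ degNL ends v = 1 ∧ ∃ e, ends e = s(r, v) := by
  classical
  unfold rootLeavesNL
  rw [mem_filter]
  simp

lemma degNL_eq {V : Type u} {E : Type v} [Fintype V] [Fintype E] (ends : E → Sym2 V)
    (v : V) (s : Finset E) (h : ∀ e, e ∈ s ↔ v ∈ ends e ∧ ¬ (ends e).IsDiag) :
    degNL ends v = s.card := by
  classical
  unfold degNL
  congr 1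
  ext e
  rw [mem_filter, h]
  simp

/-- **The exponent of `x` in the Tutte polynomial of a rooted graph.** -/
theorem result :
    (∀ (V : Type u) (E : Type v) [Fintype V] [Fintype E] (ends : E → Sym2 V) (r : V),
      (∀ e, ¬ (ends e).IsDiag) →
      IsGreatest {k : ℕ | (MvPolynomial.X 0 : MvPolynomial (Fin 2) ℤ) ^ k ∣ tutte ends r}
        (rootLeaves ends r).card) ∧
    (∀ (V : Type u) (E : Type v) [Fintype V] [Fintype E] (ends : E → Sym2 V) (r : V),
      IsGreatest {k : ℕ | (MvPolynomial.X 0 : MvPolynomial (Fin 2) ℤ) ^ k ∣ tutte ends r}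
        (rootLeavesNL ends r).card) ∧
    ¬ (∀ (V : Type) (E : Type) [Fintype V] [Fintype E] (ends : E → Sym2 V) (r : V),
      IsGreatest {k : ℕ | (MvPolynomial.X 0 : MvPolynomial (Fin 2) ℤ) ^ k ∣ tutte ends r}
        (rootLeaves ends r).card) := by
  refine ⟨?_, fun V E _ _ ends r => main ends r, ?_⟩
  · intro V E _ _ ends r h
    rw [rootLeaves_eq ends r h]
    exact main ends r
  · intro hall
    -- an edge from the root `0` to `1`, and a loop at `1`
    let ends : Fin 2 → Sym2 (Fin 2) := ![s(0, 1), s(1, 1)]
    have h1 := hall (Fin 2) (Fin 2) ends 0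
    have h2 := main ends (0 : Fin 2)
    have h3 := h1.unique h2
    have h4 : rootLeaves ends (0 : Fin 2) = ∅ := by
      rw [eq_empty_iff_forall_notMem]
      intro v hv
      rw [mem_rootLeaves] at hv
      obtain ⟨hd, e, he⟩ := hv
      unfold deg at hd
      rw [Fin.sum_univ_two] at hd
      fin_cases v
      · fin_cases e
        · simp [ends, Sym2.eq_iff] at he
        · simp [ends, Sym2.eq_iff] at he
      · simp [ends, Sym2.eq_iff] at hd
    have h5 : rootLeavesNL ends (0 : Fin 2) = {1} := by
      ext v
      rw [mem_rootLeavesNL, mem_singleton]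
      constructor
      · rintro ⟨hv, _⟩
        omega
      · rintro rfl
        refine ⟨by decide, ?_, 0, rfl⟩
        rw [degNL_eq ends 1 {0}, card_singleton]
        intro f
        rw [mem_singleton]
        fin_cases f
        · simp [ends]
        · simp [ends]
    rw [h4, h5] at h3
    simp at h3

end Pool.Agent.Results.MP_4c49f5_co.RootLeaves
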